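import Pool.Agent.H80.JD.Basic

/-!
GT: tail of `Φ`.
-/

set_option autoImplicit false

namespace Pool.Agent.H87.JD

open Finset Filter Topology Pool.Agent.H80.JD MeasureTheory ProbabilityTheory

theorem gt_sym (t : ℝ) :
    (gaussianReal 0 1).real (Set.Iio (-t)) = (gaussianReal 0 1).real (Set.Ioi t) := by
  have h : (gaussianReal 0 1).map (fun x : ℝ => -x) = gaussianReal 0 1 := by
    rw [gaussianReal_map_neg, neg_zero]
  have h1 : (gaussianReal 0 1) (Set.Iio (-t)) = (gaussianReal 0 1) (Set.Ioi t) := by
    conv_lhs => rw [← h]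
    rw [Measure.map_apply measurable_neg measurableSet_Iio]
    congr 1
    ext x
    simp only [Set.mem_preimage, Set.mem_Iio, Set.mem_Ioi]
    constructor
    · intro hx; linarith
    · intro hx; linarith
  unfold Measure.real
  rw [h1]

theorem gt_compl (t : ℝ) (ht : 0 ≤ t) :
    1 - Φ t = 2 * (gaussianReal 0 1).real (Set.Ioi t) := by
  have h1 : (Set.Icc (-t) t)ᶜ = Set.Iio (-t) ∪ Set.Ioi t := by
    ext x
    simp only [Set.mem_compl_iff, Set.mem_Icc, not_and, not_le, Set.mem_union, Set.mem_Iio,
      Set.mem_Ioi]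
    constructor
    · intro h
      by_cases hx : -t ≤ x
      · exact Or.inr (h hx)
      · exact Or.inl (not_le.1 hx)
    · rintro (h | h) h2
      · linarith
      · exact h
  have h2 : Disjoint (Set.Iio (-t)) (Set.Ioi t) := by
    rw [Set.disjoint_left]
    intro x hx hx'
    simp only [Set.mem_Iio, Set.mem_Ioi] at hx hx'
    linarith
  have h3 := probReal_compl_eq_one_sub (μ := gaussianReal 0 1) (s := Set.Icc (-t) t)
    measurableSet_Icc
  rw [h1, measureReal_union h2 measurableSet_Ioi, gt_sym] at h3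
  unfold Φ
  linarith

theorem gt_tail (t δ : ℝ) (hδ : 0 ≤ δ) :
    (gaussianReal 0 1).real (Set.Ioi (t + δ)) ≤
      Real.exp (-(t * δ)) * (gaussianReal 0 1).real (Set.Ioi t) := by
  have h1 : (gaussianReal 0 1) (Set.Ioi (t + δ)) = (gaussianReal (-δ) 1) (Set.Ioi t) := by
    have h := gaussianReal_map_add_const (μ := 0) (v := 1) (-δ)
    rw [zero_add] at h
    have hm : Measurable (fun x : ℝ => x + -δ) := measurable_id.add_const (-δ)
    rw [← h, Measure.map_apply hm measurableSet_Ioi]
    congr 1
    ext x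
    simp only [Set.mem_preimage, Set.mem_Ioi]
    constructor
    · intro hx; show t < x + -δ; linarith
    · intro hx
      have hx' : t < x + -δ := hx
      linarith
  have h2 : (gaussianReal (-δ) 1) (Set.Ioi t) ≤
      ENNReal.ofReal (Real.exp (-(t * δ))) * (gaussianReal 0 1) (Set.Ioi t) := by
    rw [gaussianReal_apply _ one_ne_zero, gaussianReal_apply _ one_ne_zero,
      ← lintegral_const_mul' _ _ ENNReal.ofReal_ne_top]
    apply setLIntegral_mono' measurableSet_Ioi
    intro x hx
    unfold gaussianPDF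
    rw [← ENNReal.ofReal_mul (Real.exp_pos _).le]
    apply ENNReal.ofReal_le_ofReal
    unfold gaussianPDFReal
    rw [mul_left_comm]
    apply mul_le_mul_of_nonneg_left _ (by positivity)
    rw [← Real.exp_add]
    apply Real.exp_le_exp.2
    simp only [NNReal.coe_one]
    have hx' : t < x := hx
    have h3 : t * δ ≤ x * δ := mul_le_mul_of_nonneg_right hx'.le hδ
    nlinarith [sq_nonneg δ]
  unfold Measure.real
  rw [h1]
  have h4 : ENNReal.ofReal (Real.exp (-(t * δ))) * (gaussianReal 0 1) (Set.Ioi t) ≠ ⊤ :=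
    ENNReal.mul_ne_top ENNReal.ofReal_ne_top (measure_ne_top _ _)
  have h5 := ENNReal.toReal_mono h4 h2
  rwa [ENNReal.toReal_mul, ENNReal.toReal_ofReal (Real.exp_pos _).le] at h5

theorem gt : T_GT := by
  refine ⟨?_, ?_, ?_, ?_⟩
  · intro t δ ht hδ
    rw [gt_compl t ht, gt_compl (t + δ) (add_nonneg ht hδ)]
    have := gt_tail t δ hδ
    linarith
  · intro t ht
    constructor
    · have h0 : (gaussianReal 0 1) (Set.Icc (-t) t) ≠ 0 := by
        intro h
        have h1 := gaussianReal_absolutelyContinuous' 0 (one_ne_zero : (1 : NNReal) ≠ 0) h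
        rw [Real.volume_Icc, ENNReal.ofReal_eq_zero] at h1
        linarith
      exact ENNReal.toReal_pos h0 (measure_ne_top _ _)
    · have h0 : (gaussianReal 0 1) (Set.Ioi t) ≠ 0 := by
        intro h
        have h1 := gaussianReal_absolutelyContinuous' 0 (one_ne_zero : (1 : NNReal) ≠ 0) h
        rw [Real.volume_Ioi] at h1
        exact ENNReal.top_ne_zero h1
      have h1 : 0 < (gaussianReal 0 1).real (Set.Ioi t) :=
        ENNReal.toReal_pos h0 (measure_ne_top _ _)
      have h2 := gt_compl t ht.le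
      linarith
  · intro t ht
    rw [gt_sym, gt_compl t ht]
    ring
  · intro t ht
    have h1 : {u : ℝ | t < |u|} = (Set.Icc (-t) t)ᶜ := by
      ext x
      rw [Set.mem_compl_iff, Set.mem_Icc, ← abs_le, not_le]
      rfl
    rw [h1, probReal_compl_eq_one_sub measurableSet_Icc]
    rfl

end Pool.Agent.H87.JD
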