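import Pool.Agent.H80.JD.Basic

/-!
LB2: the row bound is smaller than `Φ κ` by `c √x`.
-/

set_option autoImplicit false

namespace Pool.Agent.H87.JD

open Finset Filter Topology Pool.Agent.H80.JD

theorem lb2_mono {a b : ℝ} (h : a ≤ b) : Φ a ≤ Φ b := by
  unfold Φ
  exact MeasureTheory.measureReal_mono (Set.Icc_subset_Icc (neg_le_neg h) h)
    (MeasureTheory.measure_ne_top _ _)

theorem lb2_inv {x : ℝ} (h0 : 0 < x) (h1 : x ≤ 1 / 2) : 1 / Real.sqrt (1 - x) ≤ 1 + x := by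
  have h2 : 0 < Real.sqrt (1 - x) := Real.sqrt_pos.2 (by linarith)
  rw [div_le_iff₀ h2]
  have h3 : 1 / (1 + x) ≤ Real.sqrt (1 - x) := by
    apply Real.le_sqrt_of_sq_le
    rw [div_pow, one_pow, div_le_iff₀ (by positivity)]
    nlinarith [mul_nonneg h0.le (by nlinarith : (0 : ℝ) ≤ 1 - x - x ^ 2)]
  rw [div_le_iff₀ (by linarith)] at h3
  linarith

theorem lb2_key (k c1 p1 s : ℝ) (hs0 : 0 < s) (hs1 : s ≤ 1 / 2) (hsk : s ≤ k)
    (hks : k * s ≤ 1) (hc1 : 0 < c1) (hp0 : 0 < p1) (hp1 : p1 < 1)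
    (hA : (p1 * k + (1 - p1) * c1 * k) * s < (1 - p1) * c1 / 2)
    (hG1 : ∀ a b : ℝ, 0 ≤ a → a ≤ b → Φ b - Φ a ≤ b - a)
    (hG2 : ∀ a b : ℝ, 0 ≤ a → a ≤ b → b ≤ k → c1 * (b - a) ≤ Φ b - Φ a) :
    p1 * Φ (k / Real.sqrt (1 - s ^ 2)) + (1 - p1) * Φ ((k - s) / Real.sqrt (1 - s ^ 2)) <
      Φ k - (1 - p1) * c1 / 2 * s := by
  have hx0 : 0 < s ^ 2 := by positivity
  have hx1 : s ^ 2 ≤ 1 / 2 := by nlinarith
  have hk0 : 0 < k := by linarith
  have hinv := lb2_inv hx0 hx1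
  have e1 : k / Real.sqrt (1 - s ^ 2) ≤ k + k * s ^ 2 := by
    have := mul_le_mul_of_nonneg_left hinv hk0.le
    rw [mul_one_div] at this
    linarith
  have e2 : (k - s) / Real.sqrt (1 - s ^ 2) ≤ k - s + k * s ^ 2 := by
    have := mul_le_mul_of_nonneg_left hinv (sub_nonneg.2 hsk)
    rw [mul_one_div] at this
    have h3 : 0 ≤ s * s ^ 2 := by positivity
    nlinarith
  have f1 : Φ (k / Real.sqrt (1 - s ^ 2)) ≤ Φ k + k * s ^ 2 := by
    have h1 := lb2_mono e1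
    have h2 := hG1 k (k + k * s ^ 2) hk0.le (by nlinarith [mul_pos hk0 hx0])
    linarith
  have hb1 : k - s + k * s ^ 2 ≤ k := by nlinarith
  have hb0 : 0 ≤ k - s + k * s ^ 2 := by nlinarith [mul_pos hk0 hx0]
  have f2 : Φ ((k - s) / Real.sqrt (1 - s ^ 2)) ≤ Φ k - c1 * (s - k * s ^ 2) := by
    have h1 := lb2_mono e2
    have h2 := hG2 (k - s + k * s ^ 2) k hb0 hb1 (le_refl _)
    have h3 : k - (k - s + k * s ^ 2) = s - k * s ^ 2 := by ring
    rw [h3] at h2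
    linarith
  have g1 := mul_le_mul_of_nonneg_left f1 hp0.le
  have g2 := mul_le_mul_of_nonneg_left f2 (sub_nonneg.2 hp1.le)
  have g3 := mul_lt_mul_of_pos_right hA hs0
  have g4 : p1 * (Φ k + k * s ^ 2) + (1 - p1) * (Φ k - c1 * (s - k * s ^ 2)) =
      Φ k + (p1 * k + (1 - p1) * c1 * k) * s * s - (1 - p1) * c1 * s := by ring
  linarith

theorem lb2 (hGL : T_GL) (hGT : T_GT) : T_LB2 := by
  intro k hk
  obtain ⟨hG1, hG2⟩ := hGL
  obtain ⟨c1, hc1, hG2⟩ := hG2 k hk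
  obtain ⟨hp0, hp1⟩ := hGT.2.1 1 one_pos
  obtain ⟨hk0, -⟩ := hGT.2.1 k hk
  have hp1' : 0 < 1 - Φ 1 := by linarith
  have hc : 0 < (1 - Φ 1) * c1 / 2 := by positivity
  have hA : 0 < Φ 1 * k + (1 - Φ 1) * c1 * k := by positivity
  obtain ⟨s₀, h1, h2, h3, h4, h5, h6⟩ : ∃ s₀ : ℝ, 0 < s₀ ∧ s₀ ≤ 1 / 2 ∧ s₀ < k ∧ k * s₀ ≤ 1 ∧
      (Φ 1 * k + (1 - Φ 1) * c1 * k) * s₀ < (1 - Φ 1) * c1 / 2 ∧
      (1 - Φ 1) * c1 / 2 * s₀ < Φ k := by
    refine ⟨min (1 / 2) (min (k / 2) (min (1 / k)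
      (min (((1 - Φ 1) * c1 / 2) / (2 * (Φ 1 * k + (1 - Φ 1) * c1 * k)))
        (Φ k / (2 * ((1 - Φ 1) * c1 / 2)))))), ?_, ?_, ?_, ?_, ?_, ?_⟩
    · positivity
    · exact min_le_left _ _
    · refine lt_of_le_of_lt ((min_le_right _ _).trans (min_le_left _ _)) (by linarith)
    · have h : min (1 / 2) (min (k / 2) (min (1 / k)
        (min (((1 - Φ 1) * c1 / 2) / (2 * (Φ 1 * k + (1 - Φ 1) * c1 * k)))
          (Φ k / (2 * ((1 - Φ 1) * c1 / 2)))))) ≤ 1 / k :=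
        (min_le_right _ _).trans ((min_le_right _ _).trans (min_le_left _ _))
      calc _ ≤ k * (1 / k) := mul_le_mul_of_nonneg_left h hk.le
        _ = 1 := by field_simp
    · have h : min (1 / 2) (min (k / 2) (min (1 / k)
        (min (((1 - Φ 1) * c1 / 2) / (2 * (Φ 1 * k + (1 - Φ 1) * c1 * k)))
          (Φ k / (2 * ((1 - Φ 1) * c1 / 2)))))) ≤
          ((1 - Φ 1) * c1 / 2) / (2 * (Φ 1 * k + (1 - Φ 1) * c1 * k)) :=
        (min_le_right _ _).trans ((min_le_right _ _).trans ((min_le_right _ _).trans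
          (min_le_left _ _)))
      calc _ ≤ (Φ 1 * k + (1 - Φ 1) * c1 * k) *
            (((1 - Φ 1) * c1 / 2) / (2 * (Φ 1 * k + (1 - Φ 1) * c1 * k))) :=
            mul_le_mul_of_nonneg_left h hA.le
        _ = ((1 - Φ 1) * c1 / 2) / 2 := by field_simp
        _ < _ := by linarith
    · have h : min (1 / 2) (min (k / 2) (min (1 / k)
        (min (((1 - Φ 1) * c1 / 2) / (2 * (Φ 1 * k + (1 - Φ 1) * c1 * k)))
          (Φ k / (2 * ((1 - Φ 1) * c1 / 2)))))) ≤ Φ k / (2 * ((1 - Φ 1) * c1 / 2)) :=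
        (min_le_right _ _).trans ((min_le_right _ _).trans ((min_le_right _ _).trans
          (min_le_right _ _)))
      calc _ ≤ (1 - Φ 1) * c1 / 2 * (Φ k / (2 * ((1 - Φ 1) * c1 / 2))) :=
            mul_le_mul_of_nonneg_left h hc.le
        _ = Φ k / 2 := by field_simp
        _ < _ := by linarith
  refine ⟨(1 - Φ 1) * c1 / 2, s₀ ^ 2, hc, by positivity, by nlinarith, ?_, ?_⟩
  · rw [Real.sqrt_sq h1.le]; exact h3
  · intro x hx hxs
    have hs0 : 0 < Real.sqrt x := Real.sqrt_pos.2 hx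
    have hss : Real.sqrt x ≤ s₀ := by
      rw [← Real.sqrt_sq h1.le]
      exact Real.sqrt_le_sqrt hxs
    have hxx : Real.sqrt x ^ 2 = x := Real.sq_sqrt hx.le
    constructor
    · have := mul_le_mul_of_nonneg_left hss hc.le
      linarith
    · have := lb2_key k c1 (Φ 1) (Real.sqrt x) hs0 (hss.trans h2) (hss.trans h3.le)
        ((mul_le_mul_of_nonneg_left hss hk.le).trans h4) hc1 hp0 hp1
        (lt_of_le_of_lt (mul_le_mul_of_nonneg_left hss hA.le) h5) hG1 hG2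
      rw [hxx] at this
      exact this

end Pool.Agent.H87.JD
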